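import Mathlib
import Pool.Agent.Lib.MP_aba4aa_al.Assemble
import Pool.Agent.Lib.MP_aba4aa_al.ArithAct

set_option autoImplicit false

/-!
The possible finite numbers of lattice orders on a group.
-/

namespace Pool.Agent.Results.MP_aba4aa_al.OrderCountSpectrum

open Set

/-- The lattice orders on the group `G`: the partial orders `P` on `G` which are invariant under
multiplication on both sides and in which any two elements have a least upper bound and a greatest
lower bound. -/
def latticeOrders (G : Type) [Group G] : Set (PartialOrder G) :=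
  {P | (∀ g h a c : G, P.le g h → P.le (a * g * c) (a * h * c)) ∧
    (∀ g h : G, ∃ s : G, P.le g s ∧ P.le h s ∧ ∀ u : G, P.le g u → P.le h u → P.le s u) ∧
    (∀ g h : G, ∃ t : G, P.le t g ∧ P.le t h ∧ ∀ u : G, P.le u g → P.le u h → P.le u t)}

/-- the relation of a partial order -/
def rel {G : Type} (P : PartialOrder G) : G → G → Prop := P.le

lemma rel_inj {G : Type} : Function.Injective (rel : PartialOrder G → G → G → Prop) := by
  intro P Q h
  exact PartialOrder.ext fun x y => by
    have := congrFun (congrFun h x) y
    exact iff_of_eq this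

lemma image_rel (G : Type) [Group G] :
    rel '' latticeOrders G = {r | Pool.Agent.Lib.MP_aba4aa_al.IsLO G r} := by
  ext r
  constructor
  · rintro ⟨P, ⟨h1, h2, h3⟩, rfl⟩
    exact ⟨P.le_refl, P.le_trans, P.le_antisymm, fun a b c d h => h1 a b c d h, h2, h3⟩
  · rintro ⟨h1, h2, h3, h4, h5, h6⟩
    exact ⟨{ le := r, le_refl := h1, le_trans := h2, le_antisymm := h3 },
      ⟨fun g h a c hgh => h4 g h a c hgh, h5, h6⟩, rfl⟩

lemma encard_eq (G : Type) [Group G] :
    (latticeOrders G).encard = {r | Pool.Agent.Lib.MP_aba4aa_al.IsLO G r}.encard := by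
  rw [← image_rel, rel_inj.encard_image]

/-- the reverse order -/
@[reducible] def rev {G : Type} (P : PartialOrder G) : PartialOrder G where
  le a b := P.le b a
  lt a b := P.le b a ∧ ¬ P.le a b
  le_refl := P.le_refl
  le_trans a b c h1 h2 := P.le_trans c b a h2 h1
  lt_iff_le_not_ge _ _ := Iff.rfl
  le_antisymm a b h1 h2 := P.le_antisymm a b h2 h1

lemma rev_rev {G : Type} (P : PartialOrder G) : rev (rev P) = P :=
  PartialOrder.ext fun _ _ => Iff.rfl

lemma rev_mem {G : Type} [Group G] {P : PartialOrder G} (h : P ∈ latticeOrders G) :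
    rev P ∈ latticeOrders G := by
  obtain ⟨h1, h2, h3⟩ := h
  exact ⟨fun g h a c hgh => h1 h g a c hgh, h3, h2⟩

lemma rev_ne {G : Type} [Group G] [Nontrivial G] {P : PartialOrder G} (h : P ∈ latticeOrders G) :
    rev P ≠ P := by
  intro heq
  obtain ⟨g, g', hne⟩ := exists_pair_ne G
  obtain ⟨s, h1, h2, -⟩ := h.2.1 g g'
  have key : ∀ a b : G, P.le a b → a = b := by
    intro a b hab
    have h3 : (rev P).le a b := by
      rw [heq]
      exact hab
    exact P.le_antisymm a b hab h3
  exact hne ((key g s h1).trans (key g' s h2).symm)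

/-- A nontrivial group with finitely many lattice orders has an even number of them. -/
lemma even_of_finite {G : Type} [Group G] [Nontrivial G] (hf : (latticeOrders G).Finite) :
    Even (latticeOrders G).ncard := by
  rw [Set.ncard_eq_toFinset_card _ hf]
  have h1 : ∑ P ∈ hf.toFinset, (1 : ZMod 2) = 0 := by
    refine Finset.sum_involution (fun P _ => rev P) ?_ ?_ ?_ ?_
    · intro P _
      decide
    · intro P hP _
      exact rev_ne (hf.mem_toFinset.mp hP)
    · intro P hP
      exact hf.mem_toFinset.mpr (rev_mem (hf.mem_toFinset.mp hP))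
    · intro P _
      exact rev_rev P
  rw [Finset.sum_const, nsmul_eq_mul, mul_one] at h1
  exact (ZMod.natCast_eq_zero_iff_even).mp h1

/-- A group with one element has exactly one lattice order. -/
lemma one_of_subsingleton {G : Type} [Group G] [Subsingleton G] :
    (latticeOrders G).encard = 1 := by
  have hP : ∀ P : PartialOrder G, P ∈ latticeOrders G := by
    intro P
    have hle : ∀ a b : G, P.le a b := fun a b => Subsingleton.elim a b ▸ P.le_refl a
    exact ⟨fun _ _ _ _ _ => hle _ _, fun g _ => ⟨g, hle _ _, hle _ _, fun _ _ _ => hle _ _⟩,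
      fun g _ => ⟨g, hle _ _, hle _ _, fun _ _ _ => hle _ _⟩⟩
  have huniq : ∀ P Q : PartialOrder G, P = Q := by
    intro P Q
    refine PartialOrder.ext fun a b => ?_
    rw [Subsingleton.elim a b]
    exact ⟨fun _ => Q.le_refl b, fun _ => P.le_refl b⟩
  rw [Set.encard_eq_one]
  let P₀ : PartialOrder G :=
    { le := fun _ _ => True
      le_refl := fun _ => trivial
      le_trans := fun _ _ _ _ _ => trivial
      le_antisymm := fun a b _ _ => Subsingleton.elim a b }
  refine ⟨P₀, ?_⟩
  ext P
  simp only [Set.mem_singleton_iff]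
  exact ⟨fun _ => huniq P P₀, fun _ => hP P⟩

/-- The group with two elements has no lattice order. -/
lemma zero_of_two : (latticeOrders (Multiplicative (ZMod 2))).encard = 0 := by
  rw [Set.encard_eq_zero, Set.eq_empty_iff_forall_notMem]
  rintro P ⟨h1, h2, -⟩
  let g : Multiplicative (ZMod 2) := Multiplicative.ofAdd 1
  have hg : g * g = 1 := by decide
  have hg1 : g ≠ 1 := by decide
  have hall : ∀ x : Multiplicative (ZMod 2), x = 1 ∨ x = g := by decide
  have hno : ¬ P.le g 1 ∧ ¬ P.le 1 g := by
    constructor
    · intro h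
      have h3 := h1 g 1 g 1 h
      rw [hg, mul_one, mul_one, mul_one] at h3
      exact hg1 (P.le_antisymm g 1 h h3)
    · intro h
      have h3 := h1 1 g g 1 h
      rw [hg, mul_one, mul_one, mul_one] at h3
      exact hg1 (P.le_antisymm g 1 h3 h)
  obtain ⟨s, hs1, hs2, -⟩ := h2 g 1
  rcases hall s with h | h
  · rw [h] at hs1
    exact hno.1 hs1
  · rw [h] at hs2
    exact hno.2 hs2

/-- For a natural number `k` there is a group with exactly `k` lattice orders if and only if `k` is
even or `k = 1`. -/
theorem result (k : ℕ) :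
    (∃ (G : Type) (_ : Group G), (latticeOrders G).encard = k) ↔ (Even k ∨ k = 1) := by
  constructor
  · rintro ⟨G, hG, hk⟩
    rcases subsingleton_or_nontrivial G with h | h
    · right
      rw [one_of_subsingleton] at hk
      exact_mod_cast hk.symm
    · left
      have hf : (latticeOrders G).Finite := by
        rw [← Set.encard_lt_top_iff, hk]
        exact ENat.natCast_lt_top k
      have h1 := even_of_finite hf
      rwa [Set.ncard, hk, ENat.toNat_natCast] at h1
  · rintro (hk | hk)
    · rcases Nat.eq_zero_or_pos k with h0 | h0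
      · subst h0
        exact ⟨Multiplicative (ZMod 2), inferInstance, by
          rw [zero_of_two]
          rfl⟩
      · obtain ⟨G, hG, hcard⟩ := Pool.Agent.Lib.MP_aba4aa_al.main_of_arith
          Pool.Agent.Lib.MP_aba4aa_al.int_count
          (fun r hr => Pool.Agent.Lib.MP_aba4aa_al.exists_gamma r hr) k h0 hk
        refine ⟨G, hG, ?_⟩
        rw [encard_eq]
        have h1 : {r | Pool.Agent.Lib.MP_aba4aa_al.IsLO G r}.ncard = k := hcard
        have hf : {r | Pool.Agent.Lib.MP_aba4aa_al.IsLO G r}.Finite :=
          Set.finite_of_ncard_pos (by omega)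
        rw [← hf.cast_ncard_eq, h1]
    · subst hk
      exact ⟨Unit, inferInstance, by
        rw [one_of_subsingleton]
        rfl⟩

end Pool.Agent.Results.MP_aba4aa_al.OrderCountSpectrum
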